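import Mathlib

/-!
MP_8ea6c6_co, Q1: adjoining the Frobenius number to a greedy set does not always give a greedy set.
-/

namespace Pool.Agent.Results.MP_8ea6c6_co.GreedyFrobenius

open Finset

/-- The semigroup generated by `S`. -/
def sg (S : Finset ℕ) : AddSubmonoid ℕ := AddSubmonoid.closure (S : Set ℕ)

/-- The least cost of a representation of `k` by the elements of `S`. -/
noncomputable def minCost (S : Finset ℕ) (k : ℕ) : ℕ :=
  sInf {c | ∃ a : ℕ → ℕ, ∑ s ∈ S, a s * s = k ∧ ∑ s ∈ S, a s = c}

/-- The cost of the greedy representation of `k` with the generators in the given list (in this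
order), where `M` is the semigroup: for the first generator `s` the largest `q` with `k - q s ∈ M`
is used. -/
noncomputable def greedyAux (M : AddSubmonoid ℕ) : List ℕ → ℕ → ℕ
  | [], _ => 0
  | s :: l, k => sSup {q | q * s ≤ k ∧ k - q * s ∈ M} +
      greedyAux M l (k - sSup {q | q * s ≤ k ∧ k - q * s ∈ M} * s)

/-- The cost of the greedy representation of `k`: the generators are used in decreasing order. -/
noncomputable def greedyCost (S : Finset ℕ) (k : ℕ) : ℕ :=
  greedyAux (sg S) (S.sort (· ≥ ·)) k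

/-- The set `S` is greedy. -/
def IsGreedySet (S : Finset ℕ) : Prop := ∀ k ∈ sg S, greedyCost S k = minCost S k

/-- `F` is the Frobenius number of the semigroup generated by `S`. -/
def IsFrobenius (S : Finset ℕ) (F : ℕ) : Prop := IsGreatest {k | k ∉ sg S} F

/-- The assertion of Q1. -/
def Q1 : Prop :=
  ∀ S : Finset ℕ, (∀ s ∈ S, 0 < s) → S.gcd id = 1 → 1 ∉ S → IsGreedySet S →
    ∀ F : ℕ, IsFrobenius S F → IsGreedySet (insert F S)

theorem sort_eq (l : List ℕ) (hl : l.Pairwise (· > ·)) : l.toFinset.sort (· ≥ ·) = l := by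
  have hnd : l.Nodup := hl.imp (fun h => ne_of_gt h)
  exact (List.toFinset_sort (r := (· ≥ ·)) hnd).2 (hl.imp (fun h => le_of_lt h))

theorem qmax_spec {M : AddSubmonoid ℕ} {s k : ℕ} (hs : 0 < s) (hk : k ∈ M) :
    ∃ q, sSup {q | q * s ≤ k ∧ k - q * s ∈ M} = q ∧ q * s ≤ k ∧ k - q * s ∈ M ∧
      ∀ q', q' * s ≤ k → k - q' * s ∈ M → q' ≤ q := by
  have hne : {q | q * s ≤ k ∧ k - q * s ∈ M}.Nonempty := ⟨0, by simpa using hk⟩
  have hbd : BddAbove {q | q * s ≤ k ∧ k - q * s ∈ M} := by
    refine ⟨k, ?_⟩
    rintro q ⟨hq, -⟩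
    calc q = q * 1 := (mul_one q).symm
      _ ≤ q * s := Nat.mul_le_mul_left q hs
      _ ≤ k := hq
  obtain ⟨h1, h2⟩ := Nat.sSup_mem hne hbd
  exact ⟨_, rfl, h1, h2, fun q' h3 h4 => le_csSup hbd (Set.mem_ofPred.2 ⟨h3, h4⟩)⟩

theorem qmax_eq {M : AddSubmonoid ℕ} {s k q : ℕ} (h1 : q * s ≤ k) (h2 : k - q * s ∈ M)
    (h3 : ∀ q', q < q' → q' * s ≤ k → k - q' * s ∉ M) :
    sSup {q | q * s ≤ k ∧ k - q * s ∈ M} = q := by
  apply IsGreatest.csSup_eq
  refine ⟨⟨h1, h2⟩, ?_⟩
  rintro q' ⟨h4, h5⟩
  by_contra h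
  exact h3 q' (by omega) h4 h5

theorem minCost_le {S : Finset ℕ} {k c : ℕ} (a : ℕ → ℕ) (h1 : ∑ s ∈ S, a s * s = k)
    (h2 : ∑ s ∈ S, a s = c) : minCost S k ≤ c := by
  unfold minCost
  apply Nat.sInf_le
  exact ⟨a, h1, h2⟩

theorem minCost_eq {S : Finset ℕ} {k c : ℕ} (a : ℕ → ℕ) (h1 : ∑ s ∈ S, a s * s = k)
    (h2 : ∑ s ∈ S, a s = c)
    (h3 : ∀ a' : ℕ → ℕ, ∑ s ∈ S, a' s * s = k → c ≤ ∑ s ∈ S, a' s) : minCost S k = c := by
  apply le_antisymm (minCost_le a h1 h2)
  have hne : {c | ∃ a : ℕ → ℕ, ∑ s ∈ S, a s * s = k ∧ ∑ s ∈ S, a s = c}.Nonempty :=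
    ⟨c, a, h1, h2⟩
  apply le_csInf hne
  rintro c' ⟨a', h4, rfl⟩
  exact h3 a' h4

section two

/-- Every set with two elements is greedy. -/
theorem pair_greedy (a b : ℕ) (ha : 0 < a) (hab : a < b) : IsGreedySet {a, b} := by
  intro k hk
  have hne : a ≠ b := hab.ne
  have hsort : ({a, b} : Finset ℕ).sort (· ≥ ·) = [b, a] := by
    have h := sort_eq [b, a] (by simp [hab])
    have e : [b, a].toFinset = {a, b} := by
      ext x; simp [or_comm]
    rwa [e] at h
  set M := sg {a, b} with hM
  have hmem : ∀ m, m ∈ M → ∃ x y, m = x * a + y * b := by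
    intro m hm
    rw [hM, sg, Finset.coe_pair] at hm
    obtain ⟨x, y, h⟩ := (AddSubmonoid.mem_closure_pair _ _ _).1 hm
    exact ⟨x, y, by simpa using h.symm⟩
  have hmem' : ∀ x y, x * a + y * b ∈ M := by
    intro x y
    rw [hM, sg, Finset.coe_pair]
    exact (AddSubmonoid.mem_closure_pair _ _ _).2 ⟨x, y, by simp⟩
  obtain ⟨q, hq0, hq1, hq2, hq3⟩ := qmax_spec (M := M) (s := b) (by omega) hk
  obtain ⟨x, y, hxy⟩ := hmem _ hq2
  have hy : y = 0 := by
    by_contra hy
    have hb : b ≤ y * b := Nat.le_mul_of_pos_left b (by omega)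
    have h1 : (q + 1) * b ≤ k := by rw [add_mul, one_mul]; omega
    have h2 : k - (q + 1) * b ∈ M := by
      have : k - (q + 1) * b = x * a + (y - 1) * b := by
        rw [add_mul, one_mul, Nat.sub_mul, one_mul]; omega
      rw [this]
      exact hmem' _ _
    have := hq3 (q + 1) h1 h2
    omega
  subst hy
  rw [zero_mul, add_zero] at hxy
  have hq' : sSup {q | q * a ≤ x * a ∧ x * a - q * a ∈ M} = x := by
    apply qmax_eq le_rfl (by rw [Nat.sub_self]; exact M.zero_mem)
    intro q' h1 h2
    have := Nat.le_of_mul_le_mul_right h2 ha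
    omega
  have hg : greedyCost {a, b} k = q + x := by
    rw [greedyCost, hsort, ← hM]
    simp only [greedyAux, hq0, hxy, hq', Nat.add_zero]
  rw [hg]
  symm
  have hkq : x * a + q * b = k := by omega
  apply minCost_eq (fun s => if s = a then x else q)
  · rw [Finset.sum_pair hne]
    simp only [if_true, if_neg hne.symm]
    exact hkq
  · rw [Finset.sum_pair hne]
    simp only [if_true, if_neg hne.symm]
    omega
  · intro a' ha'
    rw [Finset.sum_pair hne] at ha' ⊢
    have h1 : a' b ≤ q := by
      apply hq3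
      · omega
      · have : k - a' b * b = a' a * a + 0 * b := by omega
        rw [this]
        exact hmem' _ _
    obtain ⟨d, rfl⟩ : ∃ d, b = a + d := ⟨b - a, by omega⟩
    have h2 : a * (q + x) ≤ a * (a' a + a' (a + d)) := by
      have e1 : a * (q + x) + q * d = k := by rw [← hkq]; ring
      have e2 : a * (a' a + a' (a + d)) + a' (a + d) * d = k := by rw [← ha']; ring
      have e3 : a' (a + d) * d ≤ q * d := Nat.mul_le_mul_right d h1
      omega
    exact Nat.le_of_mul_le_mul_left h2 ha

theorem mem_sg_two {a b : ℕ} (m : ℕ) : m ∈ sg {a, b} ↔ ∃ x y, m = x * a + y * b := by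
  rw [sg, Finset.coe_pair]
  constructor
  · intro hm
    obtain ⟨x, y, h⟩ := (AddSubmonoid.mem_closure_pair _ _ _).1 hm
    exact ⟨x, y, by simpa using h.symm⟩
  · rintro ⟨x, y, rfl⟩
    exact (AddSubmonoid.mem_closure_pair _ _ _).2 ⟨x, y, by simp⟩

/-- `{2, b}` with `b ≥ 7` odd: the Frobenius number is `b - 2`. -/
theorem frob_two (c : ℕ) (hc : 3 ≤ c) : IsFrobenius {2, 2 * c + 1} (2 * c - 1) := by
  constructor
  · rw [Set.mem_ofPred, mem_sg_two]
    rintro ⟨x, y, h⟩
    rcases Nat.eq_zero_or_pos y with rfl | hy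
    · omega
    · have : 2 * c + 1 ≤ y * (2 * c + 1) := Nat.le_mul_of_pos_left _ hy
      omega
  · intro k hk
    by_contra hlt
    rw [Set.mem_ofPred, mem_sg_two] at hk
    apply hk
    rcases Nat.even_or_odd' k with ⟨j, rfl | rfl⟩
    · exact ⟨j, 0, by omega⟩
    · exact ⟨j - c, 1, by omega⟩

/-- `{2, b - 2, b}` is not greedy for `b ≥ 7` odd. -/
theorem not_greedy_two (c : ℕ) (hc : 3 ≤ c) :
    ¬ IsGreedySet (insert (2 * c - 1) {2, 2 * c + 1}) := by
  intro h
  set S : Finset ℕ := insert (2 * c - 1) {2, 2 * c + 1} with hS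
  set M := sg S with hM
  have hsort : S.sort (· ≥ ·) = [2 * c + 1, 2 * c - 1, 2] := by
    have h := sort_eq [2 * c + 1, 2 * c - 1, 2] (by
      simp only [List.pairwise_cons, List.mem_cons, List.not_mem_nil, or_false, forall_eq_or_imp,
        forall_eq, List.Pairwise.nil, and_true, imp_true_iff, IsEmpty.forall_iff]
      refine ⟨⟨by omega, by omega⟩, by omega⟩)
    have e : [2 * c + 1, 2 * c - 1, 2].toFinset = S := by
      rw [hS]
      ext x; simp only [List.toFinset_cons, List.toFinset_nil, Finset.mem_insert,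
        Finset.mem_singleton, Finset.notMem_empty, or_false]
      tauto
    rwa [e] at h
  -- the small elements of the semigroup are even
  have hsmall : ∀ m ∈ M, Even m ∨ 2 * c - 1 ≤ m := by
    intro m hm
    induction hm using AddSubmonoid.closure_induction with
    | mem x hx =>
      rw [Finset.mem_coe, hS] at hx
      simp only [Finset.mem_insert, Finset.mem_singleton] at hx
      rcases hx with rfl | rfl | rfl
      · right; omega
      · left; decide
      · right; omega
    | zero => left; exact Even.zero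
    | add x y _ _ hx hy =>
      rcases hx with hx | hx
      · rcases hy with hy | hy
        · left; exact hx.add hy
        · right; omega
      · right; omega
  have heven : ∀ j, 2 * j ∈ M := by
    intro j
    have h2 : (2 : ℕ) ∈ M := AddSubmonoid.subset_closure (by simp [hS])
    have := M.nsmul_mem h2 j
    simpa [mul_comm] using this
  have hodd : ∀ m, ¬ Even m → m < 2 * c - 1 → m ∉ M := by
    intro m h1 h2 h3
    rcases hsmall m h3 with h4 | h4
    · exact h1 h4
    · omega
  have q1 : sSup {q | q * (2 * c + 1) ≤ 6 * c - 3 ∧ 6 * c - 3 - q * (2 * c + 1) ∈ M} = 1 := by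
    apply qmax_eq (by omega)
    · have : 6 * c - 3 - 1 * (2 * c + 1) = 2 * (2 * c - 2) := by omega
      rw [this]; exact heven _
    · intro q hq hle
      rcases Nat.lt_or_ge q 3 with h3 | h3
      · have : q = 2 := by omega
        subst this
        apply hodd _ _ (by omega)
        rw [Nat.even_iff]; omega
      · have : 3 * (2 * c + 1) ≤ q * (2 * c + 1) := Nat.mul_le_mul_right _ h3
        omega
  have q2 : sSup {q | q * (2 * c - 1) ≤ 4 * c - 4 ∧ 4 * c - 4 - q * (2 * c - 1) ∈ M} = 0 := by
    apply qmax_eq (by omega)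
    · have : 4 * c - 4 - 0 * (2 * c - 1) = 2 * (2 * c - 2) := by omega
      rw [this]; exact heven _
    · intro q hq hle
      rcases Nat.lt_or_ge q 2 with h3 | h3
      · have : q = 1 := by omega
        subst this
        apply hodd _ _ (by omega)
        rw [Nat.even_iff]; omega
      · have : 2 * (2 * c - 1) ≤ q * (2 * c - 1) := Nat.mul_le_mul_right _ h3
        omega
  have q3 : sSup {q | q * 2 ≤ 4 * c - 4 ∧ 4 * c - 4 - q * 2 ∈ M} = 2 * c - 2 := by
    apply qmax_eq (by omega)
    · have : 4 * c - 4 - (2 * c - 2) * 2 = 2 * 0 := by omega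
      rw [this]; exact heven _
    · intro q hq hle
      omega
  have hg : greedyCost S (6 * c - 3) = 2 * c - 1 := by
    rw [greedyCost, hsort, ← hM]
    have e1 : 6 * c - 3 - 1 * (2 * c + 1) = 4 * c - 4 := by omega
    have e2 : 4 * c - 4 - 0 * (2 * c - 1) = 4 * c - 4 := by omega
    simp only [greedyAux, q1, e1, q2, e2, q3]
    omega
  have hmem : 6 * c - 3 ∈ M := by
    have h2 : (2 * c - 1 : ℕ) ∈ M := AddSubmonoid.subset_closure (by simp [hS])
    have := M.nsmul_mem h2 3
    have e : 3 • (2 * c - 1) = 6 * c - 3 := by rw [smul_eq_mul]; omega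
    rwa [e] at this
  have hmin : minCost S (6 * c - 3) ≤ 3 := by
    apply minCost_le (fun s => if s = 2 * c - 1 then 3 else 0)
    · rw [Finset.sum_eq_single (2 * c - 1)]
      · simp only [if_true]; omega
      · intro b _ hb; simp [hb]
      · intro hn; exact absurd (by simp [hS]) hn
    · rw [Finset.sum_eq_single (2 * c - 1)]
      · simp only [if_true]
      · intro b _ hb; simp [hb]
      · intro hn; exact absurd (by simp [hS]) hn
  have := h _ hmem
  rw [hg] at this
  omega

end two

section three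

theorem sum_three (a : ℕ) (ha : 4 ≤ a) (f : ℕ → ℕ) :
    ∑ s ∈ ({a, a + 1, 2 * a + 1} : Finset ℕ), f s = f a + f (a + 1) + f (2 * a + 1) := by
  rw [Finset.sum_insert, Finset.sum_insert, Finset.sum_singleton, add_assoc]
  · rw [Finset.mem_singleton]; omega
  · simp only [Finset.mem_insert, Finset.mem_singleton]; omega

theorem mem_sg_three {a : ℕ} (m : ℕ) :
    m ∈ sg {a, a + 1, 2 * a + 1} ↔ ∃ x y, m = x * a + y * (a + 1) := by
  constructor
  · intro hm
    induction hm using AddSubmonoid.closure_induction with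
    | mem x hx =>
      rw [Finset.mem_coe] at hx
      simp only [Finset.mem_insert, Finset.mem_singleton] at hx
      rcases hx with rfl | rfl | rfl
      · exact ⟨1, 0, by ring⟩
      · exact ⟨0, 1, by ring⟩
      · exact ⟨1, 1, by ring⟩
    | zero => exact ⟨0, 0, by ring⟩
    | add x y _ _ hx hy =>
      obtain ⟨x1, y1, rfl⟩ := hx
      obtain ⟨x2, y2, rfl⟩ := hy
      exact ⟨x1 + x2, y1 + y2, by ring⟩
  · rintro ⟨x, y, rfl⟩
    have h1 : a ∈ sg {a, a + 1, 2 * a + 1} := AddSubmonoid.subset_closure (by simp)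
    have h2 : a + 1 ∈ sg {a, a + 1, 2 * a + 1} := AddSubmonoid.subset_closure (by simp)
    have := (sg {a, a + 1, 2 * a + 1}).add_mem ((sg {a, a + 1, 2 * a + 1}).nsmul_mem h1 x)
      ((sg {a, a + 1, 2 * a + 1}).nsmul_mem h2 y)
    simpa using this

/-- `{a, a + 1, 2 a + 1}` is greedy. -/
theorem three_greedy (a : ℕ) (ha : 4 ≤ a) : IsGreedySet {a, a + 1, 2 * a + 1} := by
  intro k hk
  set M := sg {a, a + 1, 2 * a + 1} with hM
  have hmem : ∀ m, m ∈ M ↔ ∃ x y, m = x * a + y * (a + 1) := fun m => mem_sg_three m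
  have hsort : ({a, a + 1, 2 * a + 1} : Finset ℕ).sort (· ≥ ·) = [2 * a + 1, a + 1, a] := by
    have h := sort_eq [2 * a + 1, a + 1, a] (by
      simp only [List.pairwise_cons, List.mem_cons, List.not_mem_nil, or_false, forall_eq_or_imp,
        forall_eq, List.Pairwise.nil, and_true, imp_true_iff, IsEmpty.forall_iff]
      refine ⟨⟨by omega, by omega⟩, by omega⟩)
    have e : [2 * a + 1, a + 1, a].toFinset = {a, a + 1, 2 * a + 1} := by
      ext x; simp only [List.toFinset_cons, List.toFinset_nil, Finset.mem_insert,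
        Finset.mem_singleton, Finset.notMem_empty, or_false]
      tauto
    rwa [e] at h
  obtain ⟨z, hz0, hz1, hz2, hz3⟩ := qmax_spec (M := M) (s := 2 * a + 1) (by omega) hk
  obtain ⟨k', hk'⟩ : ∃ k', k' = k - z * (2 * a + 1) := ⟨_, rfl⟩
  rw [← hk'] at hz2
  obtain ⟨y, hy0, hy1, hy2, hy3⟩ := qmax_spec (M := M) (s := a + 1) (by omega) hz2
  obtain ⟨x, y', hxy⟩ := (hmem _).1 hy2
  -- every representation of `k'` uses only one of the two generators
  have hone : ∀ x1 y1, k' = x1 * a + y1 * (a + 1) → x1 = 0 ∨ y1 = 0 := by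
    intro x1 y1 h
    by_contra hc
    push Not at hc
    obtain ⟨x2, rfl⟩ : ∃ x2, x1 = x2 + 1 := ⟨x1 - 1, by omega⟩
    obtain ⟨y2, rfl⟩ : ∃ y2, y1 = y2 + 1 := ⟨y1 - 1, by omega⟩
    have e : k = x2 * a + y2 * (a + 1) + (z + 1) * (2 * a + 1) := by
      have : k = k' + z * (2 * a + 1) := by omega
      rw [this, h]; ring
    have := hz3 (z + 1) (by omega) ((hmem _).2 ⟨x2, y2, by omega⟩)
    omega
  have hy' : y' = 0 := by
    by_contra hc
    obtain ⟨y2, rfl⟩ : ∃ y2, y' = y2 + 1 := ⟨y' - 1, by omega⟩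
    have e : k' = x * a + y2 * (a + 1) + (y + 1) * (a + 1) := by
      have : k' = (k' - y * (a + 1)) + y * (a + 1) := by omega
      rw [this, hxy]; ring
    have := hy3 (y + 1) (by omega) ((hmem _).2 ⟨x, y2, by omega⟩)
    omega
  subst hy'
  rw [zero_mul, add_zero] at hxy
  have hk2 : k' = x * a + y * (a + 1) := by omega
  have hxy0 := hone x y hk2
  have hx : x ≤ a := by
    by_contra hc
    push Not at hc
    obtain ⟨x2, rfl⟩ : ∃ x2, x = x2 + (a + 1) := ⟨x - (a + 1), by omega⟩
    have e : k' = x2 * a + (y + a) * (a + 1) := by rw [hk2]; ring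
    have := hy3 (y + a) (by omega) ((hmem _).2 ⟨x2, 0, by omega⟩)
    omega
  have hq' : sSup {q | q * a ≤ x * a ∧ x * a - q * a ∈ M} = x := by
    apply qmax_eq le_rfl (by rw [Nat.sub_self]; exact M.zero_mem)
    intro q' h1 h2
    have := Nat.le_of_mul_le_mul_right h2 (by omega)
    omega
  have hg : greedyCost {a, a + 1, 2 * a + 1} k = z + y + x := by
    rw [greedyCost, hsort, ← hM]
    simp only [greedyAux, hz0, ← hk', hy0, hxy, hq', Nat.add_zero]
    omega
  have hkz : x * a + y * (a + 1) + z * (2 * a + 1) = k := by omega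
  rw [hg]
  symm
  apply minCost_eq (fun s => if s = a then x else if s = a + 1 then y else z)
  · rw [sum_three a ha]
    simp only [if_true, if_neg (show ¬ (a + 1 = a) by omega),
      if_neg (show ¬ (2 * a + 1 = a) by omega), if_neg (show ¬ (2 * a + 1 = a + 1) by omega)]
    exact hkz
  · rw [sum_three a ha]
    simp only [if_true, if_neg (show ¬ (a + 1 = a) by omega),
      if_neg (show ¬ (2 * a + 1 = a) by omega), if_neg (show ¬ (2 * a + 1 = a + 1) by omega)]
    omega
  · intro f hf
    rw [sum_three a ha] at hf ⊢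
    obtain ⟨x1, hx1⟩ : ∃ x1, x1 = f a := ⟨_, rfl⟩
    obtain ⟨y1, hy1⟩ : ∃ y1, y1 = f (a + 1) := ⟨_, rfl⟩
    obtain ⟨z1, hz1'⟩ : ∃ z1, z1 = f (2 * a + 1) := ⟨_, rfl⟩
    rw [← hx1, ← hy1, ← hz1'] at hf ⊢
    -- the larger of the two coordinates
    have hmain : max (x + z) (y + z) ≤ max (x1 + z1) (y1 + z1) := by
      -- the smaller of the two coordinates
      have hmin : min (x1 + z1) (y1 + z1) ≤ z := by
        rcases le_total x1 y1 with h | h
        · rw [min_eq_left (by omega)]
          obtain ⟨d, rfl⟩ : ∃ d, y1 = x1 + d := ⟨y1 - x1, by omega⟩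
          have e : k = (x1 + z1) * (2 * a + 1) + (0 * a + d * (a + 1)) := by rw [← hf]; ring
          exact hz3 _ (by omega) ((hmem _).2 ⟨0, d, by omega⟩)
        · rw [min_eq_right (by omega)]
          obtain ⟨d, rfl⟩ : ∃ d, x1 = y1 + d := ⟨x1 - y1, by omega⟩
          have e : k = (y1 + z1) * (2 * a + 1) + (d * a + 0 * (a + 1)) := by rw [← hf]; ring
          exact hz3 _ (by omega) ((hmem _).2 ⟨d, 0, by omega⟩)
      by_contra hlt
      push Not at hlt
      -- the two representations by `a` and `a + 1`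
      have heq : (x + z) * a + (y + z) * (a + 1) = (x1 + z1) * a + (y1 + z1) * (a + 1) := by
        have e1 : (x + z) * a + (y + z) * (a + 1) = k := by rw [← hkz]; ring
        have e2 : (x1 + z1) * a + (y1 + z1) * (a + 1) = k := by rw [← hf]; ring
        omega
      obtain ⟨X, hX⟩ : ∃ X, X = x + z := ⟨_, rfl⟩
      obtain ⟨Y, hY⟩ : ∃ Y, Y = y + z := ⟨_, rfl⟩
      obtain ⟨X1, hX1⟩ : ∃ X1, X1 = x1 + z1 := ⟨_, rfl⟩
      obtain ⟨Y1, hY1⟩ : ∃ Y1, Y1 = y1 + z1 := ⟨_, rfl⟩
      rw [← hX, ← hY, ← hX1, ← hY1] at heq hlt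
      rw [← hX1, ← hY1] at hmin
      have hcop : Nat.Coprime a (a + 1) := by simp
      rcases hxy0 with h0 | h0
      · -- `X = z`
        have hYb : X1 < Y ∧ Y1 < Y := by
          have : max X Y = Y := max_eq_right (by omega)
          rw [this] at hlt
          exact ⟨lt_of_le_of_lt (le_max_left _ _) hlt, lt_of_le_of_lt (le_max_right _ _) hlt⟩
        obtain ⟨t, ht⟩ : ∃ t, Y = Y1 + t := ⟨Y - Y1, by omega⟩
        have e1 : X1 * a = X * a + t * (a + 1) := by
          rw [ht] at heq
          have : (Y1 + t) * (a + 1) = Y1 * (a + 1) + t * (a + 1) := by ring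
          omega
        have hdvd : a ∣ t := by
          have : a ∣ t * (a + 1) := by
            have h1 : a ∣ X * a + t * (a + 1) := e1 ▸ Dvd.intro_left X1 rfl
            exact (Nat.dvd_add_right (Dvd.intro_left X rfl)).1 h1
          exact hcop.dvd_of_dvd_mul_right this
        obtain ⟨s, rfl⟩ := hdvd
        have hs : 0 < s := by
          rcases Nat.eq_zero_or_pos s with rfl | h
          · omega
          · exact h
        have e2 : X1 = X + s * (a + 1) := by
          have : X1 * a = (X + s * (a + 1)) * a := by rw [e1]; ring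
          exact Nat.eq_of_mul_eq_mul_right (by omega) this
        have e3 : s * (a + 1) = a * s + s := by ring
        rcases le_total X1 Y1 with h | h
        · rw [min_eq_left h] at hmin
          omega
        · rw [min_eq_right h] at hmin
          omega
      · -- `Y = z`
        have hXb : X1 < X ∧ Y1 < X := by
          have : max X Y = X := max_eq_left (by omega)
          rw [this] at hlt
          exact ⟨lt_of_le_of_lt (le_max_left _ _) hlt, lt_of_le_of_lt (le_max_right _ _) hlt⟩
        obtain ⟨t, ht⟩ : ∃ t, X = X1 + t := ⟨X - X1, by omega⟩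
        have e1 : Y1 * (a + 1) = Y * (a + 1) + t * a := by
          rw [ht] at heq
          have : (X1 + t) * a = X1 * a + t * a := by ring
          omega
        have hdvd : (a + 1) ∣ t := by
          have : (a + 1) ∣ t * a := by
            have h1 : (a + 1) ∣ Y * (a + 1) + t * a := e1 ▸ Dvd.intro_left Y1 rfl
            exact (Nat.dvd_add_right (Dvd.intro_left Y rfl)).1 h1
          exact hcop.symm.dvd_of_dvd_mul_right this
        obtain ⟨s, rfl⟩ := hdvd
        have hs : 0 < s := by
          rcases Nat.eq_zero_or_pos s with rfl | h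
          · omega
          · exact h
        have e2 : Y1 = Y + s * a := by
          have : Y1 * (a + 1) = (Y + s * a) * (a + 1) := by rw [e1]; ring
          exact Nat.eq_of_mul_eq_mul_right (by omega) this
        have e3 : a ≤ s * a := Nat.le_mul_of_pos_left a hs
        omega
    rcases hxy0 with h0 | h0
    · have : max (x + z) (y + z) = y + z := max_eq_right (by omega)
      rw [this] at hmain
      have h2 : max (x1 + z1) (y1 + z1) ≤ x1 + y1 + z1 := max_le (by omega) (by omega)
      omega
    · have : max (x + z) (y + z) = x + z := max_eq_left (by omega)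
      rw [this] at hmain
      have h2 : max (x1 + z1) (y1 + z1) ≤ x1 + y1 + z1 := max_le (by omega) (by omega)
      omega

/-- The Frobenius number of `{a, a + 1, 2 a + 1}` is `a ^ 2 - a - 1`. -/
theorem frob_three (a : ℕ) (ha : 4 ≤ a) : IsFrobenius {a, a + 1, 2 * a + 1} (a * a - a - 1) := by
  have h := frobeniusNumber_pair (m := a) (n := a + 1) (by simp) (by omega) (by omega)
  have e : a * (a + 1) - a - (a + 1) = a * a - a - 1 := by
    have : a * (a + 1) = a * a + a := by ring
    omega
  rw [e] at h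
  have hset : {k | k ∉ sg {a, a + 1, 2 * a + 1}} = {k | k ∉ AddSubmonoid.closure {a, a + 1}} := by
    ext k
    rw [Set.mem_ofPred, Set.mem_ofPred, not_iff_not, mem_sg_three, AddSubmonoid.mem_closure_pair]
    constructor
    · rintro ⟨x, y, h⟩
      exact ⟨x, y, by simpa using h.symm⟩
    · rintro ⟨x, y, h⟩
      exact ⟨x, y, by simpa using h.symm⟩
  unfold IsFrobenius
  rw [hset]
  exact h

/-- `{a, a + 1, 2 a + 1, a ^ 2 - a - 1}` is not greedy. -/
theorem not_greedy_three (a : ℕ) (ha : 4 ≤ a) :
    ¬ IsGreedySet (insert (a * a - a - 1) {a, a + 1, 2 * a + 1}) := by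
  intro h
  obtain ⟨F, hF⟩ : ∃ F, F = a * a - a - 1 := ⟨_, rfl⟩
  have haa : 4 * a ≤ a * a := Nat.mul_le_mul_right a ha
  have hFa : F + a + 1 = a * a := by omega
  rw [← hF] at h
  set S : Finset ℕ := insert F {a, a + 1, 2 * a + 1} with hS
  set M := sg S with hM
  have hsort : S.sort (· ≥ ·) = [F, 2 * a + 1, a + 1, a] := by
    have h := sort_eq [F, 2 * a + 1, a + 1, a] (by
      simp only [List.pairwise_cons, List.mem_cons, List.not_mem_nil, or_false, forall_eq_or_imp,
        forall_eq, List.Pairwise.nil, and_true, imp_true_iff, IsEmpty.forall_iff]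
      refine ⟨⟨by omega, by omega, by omega⟩, ⟨by omega, by omega⟩, by omega⟩)
    have e : [F, 2 * a + 1, a + 1, a].toFinset = S := by
      rw [hS]
      ext x; simp only [List.toFinset_cons, List.toFinset_nil, Finset.mem_insert,
        Finset.mem_singleton, Finset.notMem_empty, or_false]
      tauto
    rwa [e] at h
  have hsmall : ∀ m ∈ M, m ∈ sg {a, a + 1, 2 * a + 1} ∨ F ≤ m := by
    intro m hm
    induction hm using AddSubmonoid.closure_induction with
    | mem x hx =>
      rw [Finset.mem_coe, hS, Finset.mem_insert] at hx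
      rcases hx with rfl | hx
      · right; exact le_rfl
      · left; exact AddSubmonoid.subset_closure hx
    | zero => left; exact AddSubmonoid.zero_mem _
    | add x y _ _ hx hy =>
      rcases hx with hx | hx
      · rcases hy with hy | hy
        · left; exact AddSubmonoid.add_mem _ hx hy
        · right; omega
      · right; omega
  have hone : 1 ∉ M := by
    intro h1
    rcases hsmall 1 h1 with h2 | h2
    · obtain ⟨x, y, h3⟩ := (mem_sg_three 1).1 h2
      rcases Nat.eq_zero_or_pos x with rfl | hx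
      · rcases Nat.eq_zero_or_pos y with rfl | hy
        · omega
        · have : a + 1 ≤ y * (a + 1) := Nat.le_mul_of_pos_left _ hy
          omega
      · have : a ≤ x * a := Nat.le_mul_of_pos_left _ hx
        omega
    · omega
  have haM : a ∈ M := AddSubmonoid.subset_closure (by simp [hS])
  have hmul : ∀ j, j * a ∈ M := by
    intro j
    have := M.nsmul_mem haM j
    simpa using this
  -- elements of the form `(a - 1) a - (t + 1) (a + 1) - x a` are not in the semigroup
  have hno : ∀ u v w : ℕ, a * a - a - (u * (2 * a + 1) + v * (a + 1)) = w →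
      u * (2 * a + 1) + v * (a + 1) ≤ a * a - a → 0 < u + v → w ∉ M := by
    intro u v w hw hle huv hwM
    rcases hsmall w hwM with h1 | h1
    · obtain ⟨x, y, h2⟩ := (mem_sg_three w).1 h1
      have h3 : a * a - a = (x + u) * a + (y + u + v) * (a + 1) := by
        have : (x + u) * a + (y + u + v) * (a + 1) = x * a + y * (a + 1) +
          (u * (2 * a + 1) + v * (a + 1)) := by ring
        omega
      have h4 : a * a = (x + u + 1) * a + (y + u + v) * (a + 1) := by
        have : (x + u + 1) * a = (x + u) * a + a := by ring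
        omega
      have h5 : a ∣ (y + u + v) * (a + 1) := by
        have h6 : a ∣ (x + u + 1) * a + (y + u + v) * (a + 1) := h4 ▸ Dvd.intro_left a rfl
        exact (Nat.dvd_add_right (Dvd.intro_left _ rfl)).1 h6
      have h6 : a ∣ y + u + v := (by simp : Nat.Coprime a (a + 1)).dvd_of_dvd_mul_right h5
      have h7 : a ≤ y + u + v := Nat.le_of_dvd (by omega) h6
      have h8 : a * (a + 1) ≤ (y + u + v) * (a + 1) := Nat.mul_le_mul_right _ h7
      have h9 : a * (a + 1) = a * a + a := by ring
      omega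
    · have h2 : a + 1 ≤ u * (2 * a + 1) + v * (a + 1) := by
        rcases Nat.eq_zero_or_pos u with rfl | hu
        · have : a + 1 ≤ v * (a + 1) := Nat.le_mul_of_pos_left _ (by omega)
          omega
        · have : 2 * a + 1 ≤ u * (2 * a + 1) := Nat.le_mul_of_pos_left _ hu
          omega
      omega
  have q1 : sSup {q | q * F ≤ 2 * F + 1 ∧ 2 * F + 1 - q * F ∈ M} = 1 := by
    apply qmax_eq (by omega)
    · have : 2 * F + 1 - 1 * F = (a - 1) * a := by
        rw [Nat.sub_mul]; omega
      rw [this]; exact hmul _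
    · intro q hq hle
      rcases Nat.lt_or_ge q 3 with h3 | h3
      · have : q = 2 := by omega
        subst this
        have : 2 * F + 1 - 2 * F = 1 := by omega
        rw [this]; exact hone
      · have : 3 * F ≤ q * F := Nat.mul_le_mul_right _ h3
        omega
  have q2 : sSup {q | q * (2 * a + 1) ≤ F + 1 ∧ F + 1 - q * (2 * a + 1) ∈ M} = 0 := by
    apply qmax_eq (by omega)
    · have : F + 1 - 0 * (2 * a + 1) = (a - 1) * a := by
        rw [Nat.sub_mul]; omega
      rw [this]; exact hmul _
    · intro q hq hle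
      exact hno q 0 _ (by omega) (by omega) (by omega)
  have q3 : sSup {q | q * (a + 1) ≤ F + 1 ∧ F + 1 - q * (a + 1) ∈ M} = 0 := by
    apply qmax_eq (by omega)
    · have : F + 1 - 0 * (a + 1) = (a - 1) * a := by
        rw [Nat.sub_mul]; omega
      rw [this]; exact hmul _
    · intro q hq hle
      exact hno 0 q _ (by omega) (by omega) (by omega)
  have q4 : sSup {q | q * a ≤ F + 1 ∧ F + 1 - q * a ∈ M} = a - 1 := by
    have e : F + 1 = (a - 1) * a := by rw [Nat.sub_mul]; omega
    rw [e]
    apply qmax_eq le_rfl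
    · rw [Nat.sub_self]; exact M.zero_mem
    · intro q hq hle
      have := Nat.le_of_mul_le_mul_right hle (by omega)
      omega
  have hg : greedyCost S (2 * F + 1) = a := by
    rw [greedyCost, hsort, ← hM]
    have e1 : 2 * F + 1 - 1 * F = F + 1 := by omega
    have e2 : F + 1 - 0 * (2 * a + 1) = F + 1 := by omega
    have e3 : F + 1 - 0 * (a + 1) = F + 1 := by omega
    simp only [greedyAux, q1, e1, q2, e2, q3, e3, q4]
    omega
  have hk : (a - 2) * (2 * a + 1) + (a + 1) = 2 * F + 1 := by
    obtain ⟨b, rfl⟩ : ∃ b, a = b + 2 := ⟨a - 2, by omega⟩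
    have e1 : (b + 2) * (b + 2) = b * b + 4 * b + 4 := by ring
    have e2 : (b + 2 - 2) * (2 * (b + 2) + 1) = 2 * (b * b) + 5 * b := by
      rw [Nat.add_sub_cancel]; ring
    rw [e2]
    omega
  have hmem : 2 * F + 1 ∈ M := by
    have h1 : 2 * a + 1 ∈ M := AddSubmonoid.subset_closure (by simp [hS])
    have h2 : a + 1 ∈ M := AddSubmonoid.subset_closure (by simp [hS])
    have := M.add_mem (M.nsmul_mem h1 (a - 2)) h2
    rw [smul_eq_mul, hk] at this
    exact this
  have hmin : minCost S (2 * F + 1) ≤ a - 1 := by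
    have hnF : F ∉ ({a, a + 1, 2 * a + 1} : Finset ℕ) := by
      simp only [Finset.mem_insert, Finset.mem_singleton]; omega
    apply minCost_le (fun s => if s = F then 0 else if s = 2 * a + 1 then a - 2 else
      if s = a + 1 then 1 else 0)
    · rw [hS, Finset.sum_insert hnF, sum_three a ha]
      simp only [if_true, if_neg (show ¬ (a = F) by omega), if_neg (show ¬ (a + 1 = F) by omega),
        if_neg (show ¬ (2 * a + 1 = F) by omega), if_neg (show ¬ (a = 2 * a + 1) by omega),
        if_neg (show ¬ (a + 1 = 2 * a + 1) by omega), if_neg (show ¬ (a = a + 1) by omega)]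
      omega
    · rw [hS, Finset.sum_insert hnF, sum_three a ha]
      simp only [if_true, if_neg (show ¬ (a = F) by omega), if_neg (show ¬ (a + 1 = F) by omega),
        if_neg (show ¬ (2 * a + 1 = F) by omega), if_neg (show ¬ (a = 2 * a + 1) by omega),
        if_neg (show ¬ (a + 1 = 2 * a + 1) by omega), if_neg (show ¬ (a = a + 1) by omega)]
      omega
  have := h _ hmem
  rw [hg] at this
  omega

end three

/-- Adjoining the Frobenius number to a greedy set does not always give a greedy set. -/
theorem result :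
    ¬ Q1 ∧
    (∀ c : ℕ, 3 ≤ c → IsGreedySet {2, 2 * c + 1} ∧ IsFrobenius {2, 2 * c + 1} (2 * c - 1) ∧
      ¬ IsGreedySet (insert (2 * c - 1) {2, 2 * c + 1})) ∧
    (∀ a : ℕ, 4 ≤ a → IsGreedySet {a, a + 1, 2 * a + 1} ∧
      IsFrobenius {a, a + 1, 2 * a + 1} (a * a - a - 1) ∧
      ¬ IsGreedySet (insert (a * a - a - 1) {a, a + 1, 2 * a + 1})) := by
  refine ⟨?_, ?_, ?_⟩
  · intro hQ
    refine not_greedy_two 3 le_rfl (hQ {2, 2 * 3 + 1} ?_ ?_ ?_ ?_ _ (frob_two 3 le_rfl))
    · decide
    · decide
    · decide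
    · exact pair_greedy 2 7 (by norm_num) (by norm_num)
  · intro c hc
    exact ⟨pair_greedy 2 (2 * c + 1) (by norm_num) (by omega), frob_two c hc, not_greedy_two c hc⟩
  · intro a ha
    exact ⟨three_greedy a ha, frob_three a ha, not_greedy_three a ha⟩

end Pool.Agent.Results.MP_8ea6c6_co.GreedyFrobenius
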